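import Pool.Graph.R_pool_sql_team_seeded_1e53cb71.Helper29K9.Cham.Odd
import Pool.Agent.H620.Inf2.Odd
import Pool.Agent.H620.Inf2.Time
import Pool.Agent.H620.Inf2.Nat
import Pool.Agent.H620.Inf2.Depth

/-!
# The orbits of the critical points of Chamberland's map, and circuits of small depth

Let `f` be Chamberland's real extension of the `3x+1` map. For odd `n` there is exactly one critical point `c n` of `f` in
`(n, n + 1/2)`; write `n = 2 j + 1`. We consider the sets of the `j` for which the orbit of `c (2 j + 1)` has a given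
asymptotic behaviour, as functions of the binary digits of `j`. Call a set `S` of natural numbers hard if for all
`0 < γ < 1 / 2`

(a) its total influence on the `k` lowest binary digits, that is the mean number of the binary digits of `j < 2 ^ k` whose
change moves `j` from the set to the complement or back, is larger than `k ^ γ` for infinitely many `k`;

(b) for infinitely many `k` and all `D ≥ 2` with `(D - 1) (log log k + 1) ≤ γ log k`, each circuit of depth at most `D` (with
gates NOT, AND, OR of unbounded fan-in) and size at most `exp (k ^ (γ / (D - 1)))` is wrong about the membership in the set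
for more than `2 ^ k / k ^ (1 - γ)` of the `j < 2 ^ k`.

Theorem. (1) Unconditionally, for `m ≥ 1` and every set `E` of residues modulo `m`, neither empty nor everything: the set of
the `j` for which the orbit of `c (2 j + 1)` arrives below `2` after a number of odd integral parts with residue in `E` is
hard. (2) Every set of critical points `c n`, `n` odd, which contains with a point all those whose orbits merge with its
orbit is empty, or everything, or (in terms of the `j`) hard. (3) The `3x+1` conjecture holds if and only if all `c n`, `n` odd,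
are attracted by one of the two known attracting cycles, and if and only if the set of the `j` for which this holds is in
(nonuniform) `AC0`, or is decided by circuits of polynomial size and depth `a log k / log log k` with `a < 1 / 2`, or can be
decided up to a small proportion `1 / k ^ (1 - γ)` of exceptions by circuits as in (b). (4) The same for the question
whether the orbit of some `c n`, `n` odd, tends to infinity.

Proof. The orbit of `c n`, `n` odd, follows the orbit of `n` under the `3x+1` map (library results). (b) follows from (a) and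
from the bound of Linial, Mansour, Nisan and Boppana for the total influence of circuits of small depth. The restriction to odd
integers costs nothing, as the sets are invariant under `n ↦ 2 n`. For (a), suppose that the total influence is small. Then
there is a window `[J, J + b)` of digits, of the length `b = k ^ δ'`, whose influences are small. Now the values after `J`
steps for `n = 2 ^ J U + L` are of the form `3 ^ o U + v`, for `0 ≤ v < 3 ^ o`, and the values of two lower parts `L`, `L'`
with `v`, `v'` near to each other coalesce after `b` steps for at least half of the digits in the window. So the membership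
of `n` is given, for most `n`, by the majority in the part of the partition of the `L` by `o` and by the quotient of `v` by
`3 ^ μ`. Comparing two such partitions, with pairs of levels `{o, o + 1}` shifted by one, one finds that the membership is a
function of the integer part `q` of `3 ^ (o₀ - μ) n / 2 ^ J` only, for most `n < 2 ^ k`, and the same as that of `3 ^ μ q + r`.
The composition of such statements through all the scales contradicts the existence of the natural density of the set,
which is neither `0` nor `1`.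
-/

set_option autoImplicit false

namespace Pool.Agent.Results.MP_a247fa_nt.CriticalOrbitsCircuits

open Filter Topology
open DomAC0 (Circuit)

/-- Chamberland's map. -/
noncomputable def f (x : ℝ) : ℝ := x + 1 / 4 - (2 * x + 1) / 4 * Real.cos (Real.pi * x)

/-- The `3x+1` map. -/
def T (n : ℕ) : ℕ := if n % 2 = 0 then n / 2 else (3 * n + 1) / 2

/-- `y` is a point of an attracting cycle of `f` contained in `(0,∞)`. -/
def AttractingPoint (y : ℝ) : Prop :=
  0 < y ∧ 0 < Function.minimalPeriod f y ∧ |deriv (f^[Function.minimalPeriod f y]) y| < 1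

/-- The orbit of `x` converges to the cycle of `y`. -/
def Attracts (y x : ℝ) : Prop :=
  ∃ j : ℕ, Tendsto (fun k : ℕ => f^[k * Function.minimalPeriod f y + j] x) atTop (𝓝 y)

/-- The orbit of `x` is below `2` for the first time at time `k`. -/
def Arrives (k : ℕ) (x : ℝ) : Prop := f^[k] x < 2 ∧ ∀ i < k, 2 ≤ f^[i] x

/-- The number of the odd integers among the integral parts of the first `k` points of the orbit of `x`. -/
noncomputable def oddParts (k : ℕ) (x : ℝ) : ℕ := ((Finset.range k).filter fun i => ⌊f^[i] x⌋ % 2 = 1).card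

/-- The orbits of `x` and `y` merge: from some times on they have the same integral parts. -/
def Merge (x y : ℝ) : Prop := ∃ i j : ℕ, ∀ k : ℕ, ⌊f^[k + i] x⌋ = ⌊f^[k + j] y⌋

/-- The `k` lowest binary digits of `n`. -/
def digits (k n : ℕ) : Fin k → Bool := fun i => n.testBit i

/-- The total influence of `S` on the integers with `k` binary digits: the mean, for `n < 2 ^ k`, of the number of the
`i < k` such that exactly one of `n` and the integer `n xor 2 ^ i`, obtained by changing the digit `i` of `n`, is in `S`. -/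
noncomputable def influence (S : Set ℕ) (k : ℕ) : ℝ :=
  ({p : ℕ × ℕ | p.1 < 2 ^ k ∧ p.2 < k ∧ ¬ (p.1 ∈ S ↔ p.1 ^^^ 2 ^ p.2 ∈ S)}.ncard : ℝ) / 2 ^ k

/-- The number of the `n < 2 ^ k` for which the circuit `Γ` is wrong about the membership in `S`. -/
noncomputable def errors (S : Set ℕ) {k : ℕ} (Γ : Circuit (Fin k)) : ℕ :=
  {n : ℕ | n < 2 ^ k ∧ ¬ (Γ.eval (digits k n) = true ↔ n ∈ S)}.ncard

/-- `S` is hard: for each `0 < c < 1 / 2`, the total influence of `S` is larger than `k ^ c` for infinitely many `k`, and, for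
infinitely many `k` and all `D ≥ 2` with `(D - 1) (log log k + 1) ≤ c log k`, each circuit of depth at most `D` and size at
most `exp (k ^ (c / (D - 1)))` is wrong about the membership in `S` for more than `2 ^ k / k ^ (1 - c)` of the `n < 2 ^ k`. -/
def Hard (S : Set ℕ) : Prop := ∀ c : ℝ, 0 < c → c < 1 / 2 →
  (∃ᶠ k : ℕ in atTop, (k : ℝ) ^ c < influence S k) ∧
  ∃ᶠ k : ℕ in atTop, ∀ D : ℕ, 2 ≤ D → ((D : ℝ) - 1) * (Real.log (Real.log k) + 1) ≤ c * Real.log k →
    ∀ Γ : Circuit (Fin k), Γ.depth ≤ D → (Γ.size : ℝ) ≤ Real.exp ((k : ℝ) ^ (c / ((D : ℝ) - 1))) →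
      (2 : ℝ) ^ k / (k : ℝ) ^ (1 - c) < errors S Γ

/-- `S` is in `AC0`: the membership of the integers `1 ≤ n < 2 ^ k` is decided by circuits of constant depth and polynomial
size. -/
def AC0 (S : Set ℕ) : Prop :=
  ∃ D A : ℕ, ∀ k : ℕ, 1 ≤ k → ∃ Γ : Circuit (Fin k), Γ.depth ≤ D ∧ Γ.size ≤ k ^ A ∧
    ∀ n, 1 ≤ n → n < 2 ^ k → (Γ.eval (digits k n) = true ↔ n ∈ S)

/-- For all large `k`, the membership of the integers `1 ≤ n < 2 ^ k` in `S` is decided by circuits of polynomial size and
of depth at most `a log k / log log k`, where `a < 1 / 2`. -/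
def Poly (S : Set ℕ) : Prop :=
  ∃ (A : ℕ) (a : ℝ), a < 1 / 2 ∧ ∀ᶠ k : ℕ in atTop, ∃ Γ : Circuit (Fin k), Γ.size ≤ k ^ A ∧
    (Γ.depth : ℝ) ≤ a * (Real.log k / Real.log (Real.log k)) ∧
    ∀ n, 1 ≤ n → n < 2 ^ k → (Γ.eval (digits k n) = true ↔ n ∈ S)

/-- For some `0 < c < 1 / 2` and all large `k` there are a `D ≥ 2` with `(D - 1) (log log k + 1) ≤ c log k` and a circuit of
depth at most `D` and size at most `exp (k ^ (c / (D - 1)))` that is wrong about the membership in `S` for at most
`2 ^ k / k ^ (1 - c)` of the `n < 2 ^ k`. -/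
def Approx (S : Set ℕ) : Prop :=
  ∃ c : ℝ, 0 < c ∧ c < 1 / 2 ∧ ∀ᶠ k : ℕ in atTop, ∃ D : ℕ, 2 ≤ D ∧
    ((D : ℝ) - 1) * (Real.log (Real.log k) + 1) ≤ c * Real.log k ∧
    ∃ Γ : Circuit (Fin k), Γ.depth ≤ D ∧ (Γ.size : ℝ) ≤ Real.exp ((k : ℝ) ^ (c / ((D : ℝ) - 1))) ∧
      (errors S Γ : ℝ) ≤ (2 : ℝ) ^ k / (k : ℝ) ^ (1 - c)

open Pool.Agent.H620 Pool.Agent.H934R2.Ch
open Pool.Agent.H499R2.LT (odn)
open Pool.Agent.H499R2.ND (Tn)

theorem T_pos' {n : ℕ} (hn : 1 ≤ n) (k : ℕ) : 1 ≤ T^[k] n := T_iter_pos hn k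

/-- orbits which follow `T` -/
def Fol (n : ℕ) (x : ℝ) : Prop := ∀ k : ℕ, ((T^[k] n : ℕ) : ℝ) ≤ f^[k] x ∧
  f^[k] x ≤ (T^[k] n : ℕ) + 5 / (6 * (2 * ((T^[k] n : ℕ) : ℝ) + 1))

theorem fol_floor {n : ℕ} (hn : 1 ≤ n) {x : ℝ} (h : Fol n x) (k : ℕ) : ⌊f^[k] x⌋ = (T^[k] n : ℕ) := by
  obtain ⟨h1, h2⟩ := h k
  have h3 : (1 : ℝ) ≤ (T^[k] n : ℕ) := by exact_mod_cast T_pos' hn k
  have h4 : 5 / (6 * (2 * ((T^[k] n : ℕ) : ℝ) + 1)) < 1 := by
    rw [div_lt_one (by positivity)]
    linarith
  rw [Int.floor_eq_iff]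
  push_cast
  constructor
  · exact h1
  · linarith

theorem merge_iff {n m : ℕ} (hn : 1 ≤ n) (hm : 1 ≤ m) {x y : ℝ} (hx : Fol n x) (hy : Fol m y) :
    Merge x y ↔ ∃ i j : ℕ, T^[i] n = T^[j] m := by
  constructor
  · rintro ⟨i, j, h⟩
    have h1 := h 0
    rw [Nat.zero_add, Nat.zero_add, fol_floor hn hx, fol_floor hm hy] at h1
    exact ⟨i, j, by exact_mod_cast h1⟩
  · rintro ⟨i, j, h⟩
    refine ⟨i, j, fun k => ?_⟩
    rw [fol_floor hn hx, fol_floor hm hy, Function.iterate_add_apply, Function.iterate_add_apply, h]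

theorem arr_iff {n : ℕ} (hn : 1 ≤ n) {x : ℝ} (h : Fol n x) (k : ℕ) : f^[k] x < 2 ↔ T^[k] n = 1 := by
  have h1 := T_pos' hn k
  have h2 := h k
  constructor
  · intro h3
    have h4 : ((T^[k] n : ℕ) : ℝ) < 2 := lt_of_le_of_lt h2.1 h3
    have h5 : T^[k] n < 2 := by exact_mod_cast h4
    omega
  · intro h3
    rw [h3] at h2
    have h4 := h2.2
    norm_num at h4
    linarith

theorem arrives_iff {n : ℕ} (hn : 1 ≤ n) {x : ℝ} (h : Fol n x) (k : ℕ) :
    Arrives k x ↔ Tn^[k] n = 1 ∧ ∀ i < k, Tn^[i] n ≠ 1 := by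
  show (f^[k] x < 2 ∧ ∀ i < k, 2 ≤ f^[i] x) ↔ (T^[k] n = 1 ∧ ∀ i < k, T^[i] n ≠ 1)
  rw [arr_iff hn h k]
  refine and_congr_right fun _ => forall₂_congr fun i _ => ?_
  rw [← not_lt, arr_iff hn h i]

theorem oddParts_eq {n : ℕ} (hn : 1 ≤ n) {x : ℝ} (h : Fol n x) (k : ℕ) : oddParts k x = odn k n := by
  unfold oddParts Pool.Agent.H499R2.LT.odn
  congr 1
  apply Finset.filter_congr
  intro i _
  rw [fol_floor hn h]
  show ((T^[i] n : ℕ) : ℤ) % 2 = 1 ↔ T^[i] n % 2 = 1
  omega

/-- the sets of positive integers which are unions of classes of merging orbits -/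
theorem class_large {S : Set ℕ} (hS : ∀ j j' : ℕ, j ∈ S → (∃ i k : ℕ, T^[i] (2 * j + 1) = T^[k] (2 * j' + 1)) → j' ∈ S)
    (h1 : S.Nonempty) (h2 : S ≠ Set.univ) : Inf2.Large (fun j => j ∈ S) := by
  set P : ℕ → Prop := fun n => ∃ j ∈ S, ∃ i k : ℕ, T^[i] (2 * j + 1) = T^[k] n with hP
  have hinv : ∀ n, P n ↔ P (Tn n) := by
    intro n
    constructor
    · rintro ⟨j, hj, i, k, h⟩
      refine ⟨j, hj, i + 1, k, ?_⟩
      rw [Function.iterate_succ_apply', h]
      show T (T^[k] n) = T^[k] (T n)
      rw [← Function.iterate_succ_apply' T k n, Function.iterate_succ_apply]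
    · rintro ⟨j, hj, i, k, h⟩
      exact ⟨j, hj, i, k + 1, by rw [h, Function.iterate_succ_apply]; rfl⟩
  have hodd : ∀ j, P (2 * j + 1) ↔ j ∈ S := by
    intro j
    constructor
    · rintro ⟨j', hj', i, k, h⟩
      exact hS j' j hj' ⟨i, k, h⟩
    · intro hj
      exact ⟨j, hj, 0, 0, rfl⟩
  have hL : Inf2.Large P := by
    apply Inf2.nat_large hinv
    · obtain ⟨j, hj⟩ := h1
      exact ⟨2 * j + 1, by omega, (hodd j).2 hj⟩
    · obtain ⟨j, hj⟩ := (Set.ne_univ_iff_exists_notMem S).1 h2
      exact ⟨2 * j + 1, by omega, fun h => hj ((hodd j).1 h)⟩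
  have h3 := Inf2.odd_large (P := P) (fun n => by
    rw [hinv (2 * n)]
    have : Tn (2 * n) = n := by unfold Tn; rw [if_pos (by omega)]; omega
    rw [this]) hL
  have e : (fun j => P (2 * j + 1)) = fun j => j ∈ S := funext fun j => propext (hodd j)
  rwa [e] at h3

/-- the number of the odd integral parts modulo `m` -/
theorem parts_large {c : ℕ → ℝ} (hc : ∀ n : ℕ, n % 2 = 1 → Fol n (c n)) {m : ℕ} (hm : 1 ≤ m) {E : Set (ZMod m)}
    (hE : E.Nonempty) (hE' : E ≠ Set.univ) :
    Inf2.Large (fun j => ∃ k, Arrives k (c (2 * j + 1)) ∧ ((oddParts k (c (2 * j + 1)) : ℕ) : ZMod m) ∈ E) := by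
  set E' : Set (ZMod m × ZMod m) := {e | e.2 ∈ E} with hE'd
  have hne : E'.Nonempty := by
    obtain ⟨v, hv⟩ := hE
    exact ⟨(0, v), hv⟩
  have hne' : E' ≠ Set.univ := by
    obtain ⟨v, hv⟩ := (Set.ne_univ_iff_exists_notMem E).1 hE'
    intro h
    apply hv
    have : ((0 : ZMod m), v) ∈ E' := by rw [h]; trivial
    exact this
  have hsh : ∀ (u : ZMod m) (n : ℕ), Inf2.Cl m E' (0 + (u, 0)) n ↔ Inf2.Cl m E' 0 n := by
    intro u n
    unfold Inf2.Cl
    refine exists_congr fun t => and_congr_right fun _ => ?_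
    show (0 + 0 + ((Inf2.odds t n : ℕ) : ZMod m)) ∈ E ↔ (0 + ((Inf2.odds t n : ℕ) : ZMod m)) ∈ E
    rw [zero_add]
  have h3 := Inf2.odd_large (P := fun n => Inf2.Cl m E' 0 n) (fun n => by
    rw [Inf2.Cl_step E' 0 (n := 2 * n) (by omega)]
    have e1 : 2 * n % 2 = 0 := by omega
    have e2 : Inf2.Cm (2 * n) = n := by unfold Inf2.Cm; rw [if_pos e1]; omega
    rw [e1, e2]
    have := hsh 1 n
    push_cast
    exact this) (Inf2.Cl_large hm hne hne')
  have e : (fun j => Inf2.Cl m E' 0 (2 * j + 1)) =
      fun j => ∃ k, Arrives k (c (2 * j + 1)) ∧ ((oddParts k (c (2 * j + 1)) : ℕ) : ZMod m) ∈ E := by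
    funext j
    apply propext
    have hn : 1 ≤ 2 * j + 1 := by omega
    have hf := hc (2 * j + 1) (by omega)
    constructor
    · rintro ⟨t, ht, ht2⟩
      obtain ⟨k, hk⟩ := Inf2.exists_T hn ht
      obtain ⟨g1, g2⟩ := Inf2.time_T k _ hn hk
      obtain rfl := Inf2.isTime_unique ht g1
      refine ⟨k, (arrives_iff hn hf k).2 hk, ?_⟩
      rw [oddParts_eq hn hf]
      rw [g2, zero_add] at ht2
      exact ht2
    · rintro ⟨k, hk, hk2⟩
      have hk' := (arrives_iff hn hf k).1 hk
      obtain ⟨g1, g2⟩ := Inf2.time_T k _ hn hk'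
      refine ⟨_, g1, ?_⟩
      rw [g2, zero_add]
      rw [oddParts_eq hn hf] at hk2
      exact hk2
  rwa [e] at h3

theorem hard {S : Set ℕ} (h : Inf2.Large (fun j => j ∈ S)) : Hard S := fun _ hγ0 hγ =>
  ⟨Inf2.large_infl h hγ, Inf2.large_depth h hγ0 hγ⟩

theorem all_of_odd (hP : ∀ n : ℕ, n % 2 = 1 → ∃ k, T^[k] n = 1) : ∀ n : ℕ, 1 ≤ n → ∃ k, T^[k] n = 1 := by
  intro n
  induction n using Nat.strong_induction_on with
  | _ n ih =>
    intro hn
    rcases Nat.mod_two_eq_zero_or_one n with h | h
    · obtain ⟨k, hk⟩ := ih (n / 2) (by omega) (by omega)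
      refine ⟨k + 1, ?_⟩
      rw [Function.iterate_succ_apply]
      have : T n = n / 2 := by unfold T; rw [if_pos h]
      rw [this, hk]
    · exact hP n h

/-- if orbits merge and one tends to infinity, so does the other -/
theorem merge_tendsto {x y : ℝ} (h : Merge x y) (hx : Tendsto (fun k : ℕ => f^[k] x) atTop atTop) :
    Tendsto (fun k : ℕ => f^[k] y) atTop atTop := by
  obtain ⟨i, j, h⟩ := h
  rw [← tendsto_add_atTop_iff_nat (f := fun k : ℕ => f^[k] y) j]
  have h1 : Tendsto (fun k : ℕ => f^[k + i] x - 1) atTop atTop := by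
    have h2 := (tendsto_add_atTop_iff_nat (f := fun k : ℕ => f^[k] x) i).2 hx
    have h3 := tendsto_atTop_add_const_right atTop (-1) h2
    exact h3
  refine tendsto_atTop_mono (fun k => ?_) h1
  show f^[k + i] x - 1 ≤ f^[k + j] y
  have h4 := h k
  have h5 : f^[k + i] x < ⌊f^[k + i] x⌋ + 1 := Int.lt_floor_add_one _
  have h6 : (⌊f^[k + j] y⌋ : ℝ) ≤ f^[k + j] y := Int.floor_le _
  rw [h4] at h5
  linarith

theorem Merge.symm {x y : ℝ} (h : Merge x y) : Merge y x := by
  obtain ⟨i, j, h⟩ := h
  exact ⟨j, i, fun k => (h k).symm⟩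

/-- There are `a` and critical points `c n`, `n` odd, of `f` with the following properties. `{1, 2}` and `{a, f a}` are
attracting cycles and `1.19 ≤ a ≤ 1.196`; for odd `n`, `c n` is the only critical point of `f` in `(n, n + 1 / 2)`.

(1) For `m ≥ 1` and every set `E` of residues modulo `m` which is neither empty nor everything, the set of the `j` for which
the orbit of `c (2 j + 1)` arrives below `2` after a number of odd integral parts with residue in `E` is hard.

(2) Let `S` be a set such that for `j ∈ S` all `j'` for which the orbit of `c (2 j' + 1)` merges with the orbit of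
`c (2 j + 1)` are in `S`. Then `S` is empty, or the set of all natural numbers, or hard.

(3) The following are equivalent: the `3x+1` conjecture; all `c n`, `n` odd, are attracted by one of the two known
attracting cycles; the set of the `j` such that `c (2 j + 1)` is attracted by one of them is in `AC0`; it is decided by
circuits of polynomial size and depth at most `a log k / log log k`, where `a < 1 / 2`; it is decided up to a proportion
`1 / k ^ (1 - c)` of exceptions by circuits of the size and depth in the definition of `Hard`.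

(4) The corresponding statements are equivalent for the set of the `j` such that the orbit of `c (2 j + 1)` tends to
infinity, the first one being that the orbit of no `c n`, `n` odd, tends to infinity. -/
theorem result : ∃ (a : ℝ) (c : ℕ → ℝ),
    (a ∈ Set.Icc (1.19 : ℝ) 1.196 ∧ f (f a) = a ∧ ∀ y, y = 1 ∨ y = 2 ∨ y = a ∨ y = f a → AttractingPoint y) ∧
    (∀ n : ℕ, n % 2 = 1 → (n : ℝ) < c n ∧ c n < n + 1 / 2 ∧ deriv f (c n) = 0 ∧
      ∀ x : ℝ, (n : ℝ) < x → x < n + 1 / 2 → deriv f x = 0 → x = c n) ∧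
    (∀ (m : ℕ) (E : Set (ZMod m)), 1 ≤ m → E.Nonempty → E ≠ Set.univ →
      Hard {j | ∃ k, Arrives k (c (2 * j + 1)) ∧ ((oddParts k (c (2 * j + 1)) : ℕ) : ZMod m) ∈ E}) ∧
    (∀ S : Set ℕ, (∀ j j' : ℕ, j ∈ S → Merge (c (2 * j + 1)) (c (2 * j' + 1)) → j' ∈ S) →
      S = ∅ ∨ S = Set.univ ∨ Hard S) ∧
    (∀ A : Set ℕ, A = {j | Attracts 1 (c (2 * j + 1)) ∨ Attracts a (c (2 * j + 1))} →
      List.TFAE [∀ n : ℕ, 1 ≤ n → ∃ k : ℕ, T^[k] n = 1,
        ∀ n : ℕ, n % 2 = 1 → Attracts 1 (c n) ∨ Attracts a (c n), AC0 A, Poly A, Approx A]) ∧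
    (∀ B : Set ℕ, B = {j | Tendsto (fun k : ℕ => f^[k] (c (2 * j + 1))) atTop atTop} →
      List.TFAE [∀ n : ℕ, n % 2 = 1 → ¬ Tendsto (fun k : ℕ => f^[k] (c n)) atTop atTop, AC0 B, Poly B, Approx B]) := by
  obtain ⟨a, ha, hga⟩ := exists_a2
  choose! c hc huniq using exists_unique_odd
  have hfol : ∀ n : ℕ, n % 2 = 1 → Fol n (c n) := by
    intro n hn k
    obtain ⟨h1, h2, h3⟩ := hc n hn
    exact shadow (by omega) (crit_in_trap hn h1 h2 h3) k
  have hmer : ∀ j j' : ℕ, Merge (c (2 * j + 1)) (c (2 * j' + 1)) ↔ ∃ i k : ℕ, T^[i] (2 * j + 1) = T^[k] (2 * j' + 1) :=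
    fun j j' => merge_iff (by omega) (by omega) (hfol _ (by omega)) (hfol _ (by omega))
  have hfate : ∀ n : ℕ, n % 2 = 1 → (Attracts 1 (c n) ∨ Attracts a (c n) ↔ ∃ k, T^[k] n = 1) := by
    intro n hn
    obtain ⟨h1, h2, h3⟩ := hc n hn
    obtain ⟨g1, g2⟩ := Pool.Agent.Helper29K9.Cham.odd_fate ha hga hn h1 h2 h3
    have g1' : Attracts a (c n) ↔ n = 1 ∨ n = 3 ∨ n = 5 := g1
    have g2' : Attracts 1 (c n) ↔ 7 ≤ n ∧ ∃ k, T^[k] n = 1 := g2
    rw [g1', g2']
    constructor
    · rintro (⟨_, h⟩ | (rfl | rfl | rfl))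
      · exact h
      · exact ⟨0, rfl⟩
      · exact ⟨5, by decide⟩
      · exact ⟨4, by decide⟩
    · intro h
      by_cases h7 : 7 ≤ n
      · exact Or.inl ⟨h7, h⟩
      · right
        omega
  refine ⟨a, c, ⟨ha, hga, fun y h => known_attr ha hga h⟩, fun n hn => ?_, fun m E hm hE hE' =>
    hard (parts_large hfol hm hE hE'), fun S hS => ?_, fun A hA => ?_, fun B hB => ?_⟩
  · obtain ⟨h1, h2, h3⟩ := hc n hn
    exact ⟨h1, h2, h3, fun x g1 g2 g3 => huniq n hn x ⟨g1, g2, g3⟩⟩
  · by_cases h1 : S = ∅
    · exact Or.inl h1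
    · by_cases h2 : S = Set.univ
      · exact Or.inr (Or.inl h2)
      · refine Or.inr (Or.inr (hard (class_large (fun j j' hj h => ?_) (Set.nonempty_iff_ne_empty.2 h1) h2)))
        exact hS j j' hj ((hmer j j').2 h)
  · have hA' : ∀ j, j ∈ A ↔ ∃ k, T^[k] (2 * j + 1) = 1 := by
      intro j
      rw [hA]
      exact hfate (2 * j + 1) (by omega)
    have h12 : (∀ n : ℕ, 1 ≤ n → ∃ k : ℕ, T^[k] n = 1) ↔ ∀ n : ℕ, n % 2 = 1 → Attracts 1 (c n) ∨ Attracts a (c n) :=
      ⟨fun h n hn => (hfate n hn).2 (h n (by omega)), fun h => all_of_odd fun n hn => (hfate n hn).1 (h n hn)⟩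
    have h0 : List.TFAE [∀ n : ℕ, 1 ≤ n → ∃ k : ℕ, T^[k] n = 1, Inf2.AC0 A, Inf2.Poly A, Inf2.Approx A] := by
      refine Inf2.tfae_of (S := A) (fun h => Inf2.AC0_all fun j hj => (hA' j).2 (h _ (by omega))) fun h => ?_
      apply class_large
      · rintro j j' hj ⟨i, k, hik⟩
        rw [hA'] at hj ⊢
        obtain ⟨t, ht⟩ := hj
        -- the orbit of `2 j + 1` is in the cycle `{1, 2}` from time `t` on
        have hcyc : ∀ s : ℕ, T^[s] 1 = 1 ∨ T^[s] 1 = 2 := by
          intro s
          induction s with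
          | zero => left; rfl
          | succ s ih =>
            rw [Function.iterate_succ_apply']
            rcases ih with h | h
            · right; rw [h]; rfl
            · left; rw [h]; rfl
        have h5 : T^[t + k] (2 * j' + 1) = T^[i] 1 := by
          rw [Function.iterate_add_apply, ← hik, ← Function.iterate_add_apply, add_comm t i,
            Function.iterate_add_apply, ht]
        rcases hcyc i with h6 | h6
        · exact ⟨t + k, by rw [h5, h6]⟩
        · exact ⟨t + k + 1, by rw [Function.iterate_succ_apply', h5, h6]; rfl⟩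
      · exact ⟨0, (hA' 0).2 ⟨0, rfl⟩⟩
      · intro hu
        apply h
        apply all_of_odd
        intro n hn
        have : n / 2 ∈ A := by rw [hu]; trivial
        rw [hA'] at this
        have e : 2 * (n / 2) + 1 = n := by omega
        rwa [e] at this
    tfae_have 1 ↔ 2 := h12
    tfae_have 1 ↔ 3 := h0.out 0 1
    tfae_have 1 ↔ 4 := h0.out 0 2
    tfae_have 1 ↔ 5 := h0.out 0 3
    tfae_finish
  · have hB' : ∀ j, j ∈ B ↔ Tendsto (fun k : ℕ => f^[k] (c (2 * j + 1))) atTop atTop := by
      intro j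
      rw [hB]
      exact Iff.rfl
    refine Inf2.tfae_of (S := B) (fun h => Inf2.AC0_none fun j hj => ?_) fun h => ?_
    · rw [hB']; exact h _ (by omega)
    · apply class_large
      · intro j j' hj hjj
        rw [hB'] at hj ⊢
        exact merge_tendsto ((hmer j j').2 hjj) hj
      · rw [Set.nonempty_iff_ne_empty]
        intro he
        apply h
        intro n hn ht
        have : n / 2 ∈ B := by
          rw [hB']
          have e : 2 * (n / 2) + 1 = n := by omega
          rwa [e]
        rw [he] at this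
        exact this
      · intro hu
        have h7 : (0 : ℕ) ∈ B := by rw [hu]; trivial
        rw [hB'] at h7
        have hf1 := hfol 1 (by norm_num)
        have hcyc : ∀ s : ℕ, T^[s] 1 ≤ 2 := by
          intro s
          have : T^[s] 1 = 1 ∨ T^[s] 1 = 2 := by
            induction s with
            | zero => left; rfl
            | succ s ih =>
              rw [Function.iterate_succ_apply']
              rcases ih with h | h
              · right; rw [h]; rfl
              · left; rw [h]; rfl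
          omega
        obtain ⟨k, hk⟩ := (h7.eventually_ge_atTop 4).exists
        have hk' : (4 : ℝ) ≤ f^[k] (c 1) := hk
        have h8 := (hf1 k).2
        have h9 : ((T^[k] 1 : ℕ) : ℝ) ≤ 2 := by exact_mod_cast hcyc k
        have h10 : 5 / (6 * (2 * ((T^[k] 1 : ℕ) : ℝ) + 1)) ≤ 1 := by
          rw [div_le_one (by positivity)]
          have : (0 : ℝ) ≤ ((T^[k] 1 : ℕ) : ℝ) := by positivity
          linarith
        linarith

end Pool.Agent.Results.MP_a247fa_nt.CriticalOrbitsCircuits
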