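import Mathlib
import Pool.Agent.H622.Ch7

set_option autoImplicit false

/-!
# The typical orbits of Chamberland's map: the normal law of the descent time, independent of the fate

`f` is Chamberland's real extension of the `3x+1` map. For Lebesgue-almost all points `x` of `[m, m+1)` the descent of
the orbit below a level `L` takes about `log m / γ` steps, `γ = log (4 / (2 + √3)) = 0.0693...` (for the integers
below `m` the expected number is `2 log m / log (4/3)`, less than half of it), the deviations are normal, and they are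
independent of the fate of the orbit, for example of the attracting cycle which attracts `x`.
-/

namespace Pool.Agent.Results.MP_a247fa_nt.DescentTimeNormal

open Filter Topology MeasureTheory

/-- Chamberland's map. -/
noncomputable def f (x : ℝ) : ℝ := x + 1 / 4 - (2 * x + 1) / 4 * Real.cos (Real.pi * x)

/-- Measurable sets that are completely invariant under `f` on `(0,∞)`. -/
def Invariant (B : Set ℝ) : Prop := MeasurableSet B ∧ ∀ x : ℝ, 0 < x → (x ∈ B ↔ f x ∈ B)

/-- The measure of `B ∩ [m, m+1)`. -/
noncomputable def share (B : Set ℝ) (m : ℕ) : ℝ := (volume (B ∩ Set.Ico (m : ℝ) (m + 1))).toReal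

/-- Points of attracting cycles contained in `(0,∞)`. -/
def AttractingPoint (y : ℝ) : Prop :=
  0 < y ∧ 0 < Function.minimalPeriod f y ∧ |deriv (f^[Function.minimalPeriod f y]) y| < 1

/-- The points `x > 0` whose orbit converges to the cycle of `y`. -/
def Basin (y : ℝ) : Set ℝ :=
  {x | 0 < x ∧ ∃ j : ℕ, Tendsto (fun k : ℕ => f^[k * Function.minimalPeriod f y + j] x) atTop (𝓝 y)}

/-- The points for which the orbit is not below `L` up to the time `k` (the descent time is greater than `k`). -/
def Above (L k : ℕ) : Set ℝ := {x | ∀ i ≤ k, (L : ℝ) ≤ f^[i] x}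

/-- The rate of descent. -/
noncomputable def γ : ℝ := Real.log (4 / (2 + Real.sqrt 3))

/-- The standard deviation of `log (1 - cos (π u) / 2)`, `u` uniformly distributed in `[0, 1]`. -/
noncomputable def σ : ℝ :=
  Real.sqrt (∫ u in (0 : ℝ)..1, (Real.log (1 - Real.cos (Real.pi * u) / 2) + γ) ^ 2)

/-- The probability that a standard normal random variable is greater than `t`. -/
noncomputable def normalTail (t : ℝ) : ℝ :=
  (Real.sqrt (2 * Real.pi))⁻¹ * ∫ x in Set.Ioi t, Real.exp (-(x ^ 2 / 2))

namespace Aux

open Pool.Agent.H622.Ch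

theorem tail_eq (t : ℝ) : normalTail t = Qt t := by
  unfold normalTail Qt
  rw [measureReal_def, ProbabilityTheory.gaussianReal_apply_eq_integral 0 one_ne_zero, ENNReal.toReal_ofReal
    (integral_nonneg fun x => ProbabilityTheory.gaussianPDFReal_nonneg _ _ _), integral_Ici_eq_integral_Ioi,
    ← integral_const_mul]
  apply integral_congr_ae
  filter_upwards with x
  rw [ProbabilityTheory.gaussianPDFReal_def]
  simp only [NNReal.coe_one, mul_one, sub_zero]
  congr 2
  ring

theorem gamma_bounds : 1 / 15 < γ ∧ γ < 1 / 13 := by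
  have h0 := Real.sqrt_nonneg 3
  have h1 := sqrt3_sq
  have h3 : Real.sqrt 3 < 1.733 := by
    rw [Real.sqrt_lt' (by norm_num)]; norm_num
  have h4 : 1.732 < Real.sqrt 3 := by
    apply Real.lt_sqrt_of_sq_lt; norm_num
  have hp : 0 < 4 / (2 + Real.sqrt 3) := by positivity
  unfold γ
  constructor
  · have h5 := Real.one_sub_inv_le_log_of_pos hp
    rw [inv_div] at h5
    linarith
  · have h5 := Real.log_le_sub_one_of_pos hp
    have h6 : 4 / (2 + Real.sqrt 3) < 1 + 1 / 13 := by
      rw [div_lt_iff₀ (by positivity)]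
      linarith
    linarith

end Aux

open Aux in
/-- THE NORMAL LAW OF THE DESCENT TIME, INDEPENDENT OF THE FATE.
(1) `1/15 < γ < 1/13`, `σ > 0`, and `-γ` is the mean of `log (1 - cos (π u) / 2)`.
(2) Completely invariant sets have a density `D` in the unit intervals; the basins of the attracting cycles are
completely invariant, of positive density (this is known).
(3) For every `ε > 0` there is `M` such that for ALL completely invariant sets `B` of density `D`, all `m ≥ M`, all
levels `L ≥ M` with `log L ≤ √(log m) / M`, and ALL `k`: the measure of the points of `B` in `[m, m + 1)` whose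
descent time is greater than `k` is `D` times the probability that a normal random variable with the mean
`log m / γ` and the standard deviation `σ √(log m / γ) / γ` is greater than `k`, up to `ε`. -/
theorem result :
    (1 / 15 < γ ∧ γ < 1 / 13 ∧ 0 < σ ∧ ∫ u in (0 : ℝ)..1, Real.log (1 - Real.cos (Real.pi * u) / 2) = -γ) ∧
    ((∀ B : Set ℝ, Invariant B → ∃ D : ℝ, 0 ≤ D ∧ D ≤ 1 ∧ Tendsto (share B) atTop (𝓝 D)) ∧
      ∀ y : ℝ, AttractingPoint y → Invariant (Basin y) ∧
        ∃ D : ℝ, 0 < D ∧ Tendsto (share (Basin y)) atTop (𝓝 D)) ∧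
    ∀ ε : ℝ, 0 < ε → ∃ M : ℕ, ∀ (B : Set ℝ) (D : ℝ), Invariant B → Tendsto (share B) atTop (𝓝 D) →
      ∀ m L k : ℕ, M ≤ m → M ≤ L → M * Real.log L ≤ Real.sqrt (Real.log m) →
        |share (B ∩ Above L k) m -
          D * normalTail ((γ * k - Real.log m) / (σ * Real.sqrt (Real.log m / γ)))| ≤ ε := by
  refine ⟨⟨gamma_bounds.1, gamma_bounds.2, Pool.Agent.H622.Ch.sig_pos, ?_⟩, ⟨?_, ?_⟩, ?_⟩
  · have h := Pool.Agent.H622.Ch.mu_mean
    unfold Pool.Agent.H622.Ch.mu at h
    rw [integral_map Pool.Agent.H622.Ch.continuous_xi.measurable.aemeasurable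
      measurable_id'.aestronglyMeasurable, ← intervalIntegral.integral_of_le zero_le_one] at h
    exact h
  · intro B hB
    obtain ⟨D, hD, -⟩ := Pool.Agent.TH237.CH.rate (B := B) hB
    exact ⟨D, ge_of_tendsto' hD (Pool.Agent.W40.Ch.bb_nonneg B),
      le_of_tendsto' hD (Pool.Agent.W40.Ch.bb_le_one B), hD⟩
  · intro y hy
    have hinv : Invariant (Basin y) := Pool.Agent.W40.Ch.basin_inv (y := y) hy.2.1
    obtain ⟨D, hD, -⟩ := Pool.Agent.TH237.CH.rate (B := Basin y) hinv
    exact ⟨hinv, D, Pool.Agent.W40.Ch.dens_pos hinv (Pool.Agent.W40.Ch.basin_pos hy) hD, hD⟩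
  · intro ε hε
    obtain ⟨M, hM⟩ := Pool.Agent.H622.Ch.uniform hε
    refine ⟨M, fun B D hB hD m L k hm hL hML => ?_⟩
    rw [tail_eq]
    exact hM B D hB hD m L k hm hL hML

end Pool.Agent.Results.MP_a247fa_nt.DescentTimeNormal
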